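import Pool.Agent.H83.V.FV

/-!
Theorem V, row VCO: the good words are a code (for words of length at least `2`).
-/

set_option autoImplicit false

open MeasureTheory ProbabilityTheory Filter Topology Finset
open scoped Nat ENNReal

namespace Pool.Agent.H75.V

open Pool.Agent.H83.V

/-- the values of the indices are distinct, and two different nonzero values are opposite -/
lemma iv_opp : ∀ k l : Fin 3, k ≠ l → (iv k ≠ 0 ↔ iv l ≠ 0) → iv k ≠ 0 ∧ iv l = -iv k := by
  decide

/-- the residue data of a good word at one place determine them at every place -/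
lemma res_eq {z : Bool} {m : ℕ} {I : Finset (Fin m)} {w p : ℕ} {b : ℕ → Bool}
    {V V' : Fin m → Al w} (h : GoodV z I w p b V) (h' : GoodV z I w p b V') {i j : Fin m}
    (hj : V j = V' j) : (V i).2 = (V' i).2 := by
  funext d
  by_cases hd : (d : ℕ).Prime
  · have h1 := h.1 i j d hd
    have h2 := h'.1 i j d hd
    have h3 : ((V i).2 d : ℕ) + p * ((i : ℕ) + 1) ≡ ((V' i).2 d : ℕ) + p * ((i : ℕ) + 1)
        [MOD (d : ℕ) ^ 2] := by
      have h4 := h2.2.symm
      rw [← hj] at h4
      exact h1.2.trans h4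
    have h5 : ((V i).2 d : ℕ) ≡ ((V' i).2 d : ℕ) [MOD (d : ℕ) ^ 2] :=
      Nat.ModEq.add_right_cancel' _ h3
    exact Fin.ext (Nat.ModEq.eq_of_lt_of_lt h5 h1.1 h2.1)
  · rw [h.2.1 i d hd, h'.2.1 i d hd]

theorem pf_VCO (hG : T_GDL) : T_VCO := by
  intro z m I w lb p hm v v' hv hv' i hi hne
  by_contra hcon
  have hcon : ∀ j, j ≠ i → v j = v' j := by
    intro j hj
    by_contra h
    exact hcon ⟨j, hj, h⟩
  have hv : GoodV z I w p (lb p) fun i => (en w).symm (v i) := by
    by_contra h
    exact hv h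
  have hv' : GoodV z I w p (lb p) fun i => (en w).symm (v' i) := by
    by_contra h
    exact hv' h
  obtain ⟨j, hj⟩ : ∃ j : Fin m, j ≠ i := by
    have : Nontrivial (Fin m) := Fin.nontrivial_iff_two_le.2 hm
    exact exists_ne i
  have hr : ((en w).symm (v i)).2 = ((en w).symm (v' i)).2 :=
    res_eq (i := i) (j := j) hv hv' (by simp only [hcon j hj])
  have h1 : ((en w).symm (v i)).1 ≠ ((en w).symm (v' i)).1 := by
    intro h
    exact hne ((en w).symm.injective (Prod.ext h hr))
  have h2 : iv ((en w).symm (v i)).1 ≠ 0 ↔ iv ((en w).symm (v' i)).1 ≠ 0 := by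
    have a1 := hv.2.2.1 i
    have a2 := hv'.2.2.1 i
    simp only [hr] at a1
    exact a1.trans a2.symm
  obtain ⟨h3, h4⟩ := iv_opp _ _ h1 h2
  obtain ⟨j', hj', hne'⟩ := (hG m I).1 (lb p) _ hv.2.2.2 _ hv'.2.2.2 i hi (by simpa using h3)
    (by simp only [h4])
  exact hne' (by simp only [hcon j' hj'])

end Pool.Agent.H75.V
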